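import Pool.Agent.helper81.EP.SpecO

set_option autoImplicit false

open Finset
open scoped Real

noncomputable section

namespace Pool.Agent.EP

theorem OG_tri (r : ℕ) : 8 * tri r + 1 = (2 * r + 1) ^ 2 := by
  have h1 : tri r * 2 = r * (r + 1) := by
    unfold tri
    exact Nat.div_mul_cancel (Nat.even_mul_succ_self r).two_dvd
  nlinarith

theorem OG_tri_inj {r r' : ℕ} (h : tri r = tri r') : r = r' := by
  have h1 := OG_tri r
  have h2 := OG_tri r'
  rw [h, h2] at h1
  have h3 := Nat.pow_left_injective (n := 2) (by norm_num) h1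
  omega

theorem OG_le_tri (r : ℕ) : r ≤ tri r := by
  have h1 := OG_tri r
  nlinarith

/-- the odd valued arguments -/
def OG_S (X : ℕ) : Finset ℕ := {n ∈ range (X + 1) | Odd (Fintype.card (Nat.Partition n))}

/-- the odd valued positive arguments -/
def OG_S1 (X : ℕ) : Finset ℕ := (OG_S X).erase 0

open Classical in
/-- the good primes -/
def OG_G (b e T m : ℕ) : Finset ℕ :=
  {u ∈ Ioc T (2 * T) | u.Prime ∧ ¬ u ∣ 24 * m - 1 ∧ Cln b e (tri ((u - 1) / 2) + 4 ^ b * m) ∧
    ∀ m' r', Odd (Fintype.card (Nat.Partition m')) → m' ≠ m →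
      tri r' + 4 ^ b * m' ≠ tri ((u - 1) / 2) + 4 ^ b * m}

open Classical in
/-- the primes with a collision -/
def OG_B (b T m m' : ℕ) : Finset ℕ :=
  {u ∈ Ioc T (2 * T) | u.Prime ∧ ∃ r', tri r' + 4 ^ b * m' = tri ((u - 1) / 2) + 4 ^ b * m}

theorem OG_odd {T u : ℕ} (hT : 2 ≤ T) (hu : u ∈ Ioc T (2 * T)) (hp : u.Prime) :
    2 * ((u - 1) / 2) + 1 = u := by
  rw [mem_Ioc] at hu
  have h := hp.eq_two_or_odd
  omega

theorem OG_collision (hOC : OC_stmt) {b T m m' : ℕ} (hT : 2 ≤ T) (hne : m' ≠ m) :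
    #(OG_B b T m m') ≤ #(8 * 4 ^ b * (m' - m + (m - m'))).divisors := by
  classical
  set N := 2 * T + 4 ^ b * m + (2 * T) ^ 2 + 1 with hN
  have h := hOC (4 ^ b) m' m N (by positivity) hne
  refine le_trans ?_ h
  have hex : ∀ u ∈ OG_B b T m m', ∃ r', tri r' + 4 ^ b * m' = tri ((u - 1) / 2) + 4 ^ b * m := by
    intro u hu
    unfold OG_B at hu
    rw [mem_filter] at hu
    exact hu.2.2
  choose! f hf using hex
  refine card_le_card_of_injOn (fun u => (f u, (u - 1) / 2)) ?_ ?_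
  · intro u hu
    have hu' : u ∈ OG_B b T m m' := hu
    have h1 := hf u hu'
    unfold OG_B at hu'
    rw [mem_filter] at hu'
    obtain ⟨hI, hp, _⟩ := hu'
    have hodd := OG_odd hT hI hp
    rw [mem_Ioc] at hI
    rw [mem_coe, mem_filter, mem_product, mem_range, mem_range]
    refine ⟨⟨?_, ?_⟩, h1⟩
    · have h2 := OG_le_tri (f u)
      have h3 := OG_tri ((u - 1) / 2)
      rw [hodd] at h3
      have h4 : u ^ 2 ≤ (2 * T) ^ 2 := Nat.pow_le_pow_left hI.2 2
      have h5 : 0 ≤ 4 ^ b * m' := Nat.zero_le _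
      simp only
      omega
    · have h5 : 0 ≤ 4 ^ b * m := Nat.zero_le _
      have h6 : 0 ≤ (2 * T) ^ 2 := Nat.zero_le _
      simp only
      omega
  · intro u hu v hv huv
    have hu' : u ∈ OG_B b T m m' := hu
    have hv' : v ∈ OG_B b T m m' := hv
    unfold OG_B at hu' hv'
    rw [mem_filter] at hu' hv'
    have h1 := OG_odd hT hu'.1 hu'.2.1
    have h2 := OG_odd hT hv'.1 hv'.2.1
    have h3 := (Prod.ext_iff.1 huv).2
    simp only at h3
    rw [← h1, ← h2, h3]

theorem OG_card_G (hOD : OD_stmt) (hOC : OC_stmt) {b e Y U T D P m : ℕ} (hb : 2 ≤ b) (he : 1 ≤ e)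
    (hT : 2 ≤ T) (hU : U ≤ Y) (hTU : T ^ 2 ≤ 2 * (4 ^ b * U))
    (hD : ∀ k : ℕ, 0 < k → k ≤ 24 * (16 ^ b * Y) → #k.divisors ≤ D)
    (hP : P ≤ #{u ∈ Ioc T (2 * T) | u.Prime}) (hm1 : 1 ≤ m) (hmY : m ≤ Y - U) :
    P - (D + 2 ^ b * D ^ 2 * (T / (2 ^ b * e) + 1) + D * sO Y) ≤ #(OG_G b e T m) := by
  classical
  have hY : 1 ≤ Y := by omega
  have h16 : 4 ^ b ≤ 16 ^ b := Nat.pow_le_pow_left (by norm_num) b
  have h16' : 1 ≤ 16 ^ b := Nat.one_le_pow _ _ (by norm_num)
  have hbig : 16 ^ b ≤ 16 ^ b * Y := Nat.le_mul_of_pos_right _ (by omega)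
  have hYb : Y ≤ 16 ^ b * Y := Nat.le_mul_of_pos_left _ (by omega)
  have h4Y : 4 ^ b * Y ≤ 16 ^ b * Y := Nat.mul_le_mul_right _ h16
  have hsub : ({u ∈ Ioc T (2 * T) | u.Prime} : Finset ℕ) ⊆
      OG_G b e T m ∪ (((24 * m - 1).divisors ∪ Bdu b e m T) ∪
        ((OG_S Y).erase m).biUnion (fun m' => OG_B b T m m')) := by
    intro u hu
    rw [mem_filter] at hu
    obtain ⟨hI, hp⟩ := hu
    rw [mem_union, mem_union, mem_union]
    by_cases h1 : u ∣ 24 * m - 1
    · right; left; left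
      rw [Nat.mem_divisors]
      exact ⟨h1, by omega⟩
    by_cases h2 : Cln b e (tri ((u - 1) / 2) + 4 ^ b * m)
    · by_cases h3 : ∀ m' r', Odd (Fintype.card (Nat.Partition m')) → m' ≠ m →
          tri r' + 4 ^ b * m' ≠ tri ((u - 1) / 2) + 4 ^ b * m
      · left
        unfold OG_G
        rw [mem_filter]
        exact ⟨hI, hp, h1, h2, h3⟩
      · right; right
        push Not at h3
        obtain ⟨m', r', h4, h5, h6⟩ := h3
        rw [mem_biUnion]
        refine ⟨m', ?_, ?_⟩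
        · rw [mem_erase]
          refine ⟨h5, ?_⟩
          unfold OG_S
          rw [mem_filter, mem_range]
          refine ⟨?_, h4⟩
          have h7 := OG_tri ((u - 1) / 2)
          rw [OG_odd hT hI hp] at h7
          rw [mem_Ioc] at hI
          have h8 : u ^ 2 ≤ (2 * T) ^ 2 := Nat.pow_le_pow_left hI.2 2
          have h9 : (2 * T) ^ 2 = 4 * T ^ 2 := by ring
          have h10 : tri ((u - 1) / 2) ≤ 4 ^ b * U := by omega
          have h11 : 4 ^ b * m ≤ 4 ^ b * (Y - U) := Nat.mul_le_mul_left _ hmY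
          have h12 : 4 ^ b * (Y - U) + 4 ^ b * U = 4 ^ b * Y := by
            rw [← mul_add]; congr 1; omega
          have h13 : 4 ^ b * m' ≤ 4 ^ b * Y := by omega
          have h14 := Nat.le_of_mul_le_mul_left h13 (by positivity)
          omega
        · unfold OG_B
          rw [mem_filter]
          exact ⟨hI, hp, r', h6⟩
    · right; left; right
      unfold Bdu
      rw [mem_filter]
      exact ⟨hI, hp, h1, h2⟩
  have hc1 := card_le_card hsub
  have hc2 : #(24 * m - 1).divisors ≤ D := hD _ (by omega) (by omega)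
  have hc3 : #(Bdu b e m T) ≤ 2 ^ b * D ^ 2 * (T / (2 ^ b * e) + 1) :=
    hOD b e m T D (by omega) he hm1 hT (fun k hk hk2 => hD k hk (by omega))
  have hc4 : #(((OG_S Y).erase m).biUnion (fun m' => OG_B b T m m')) ≤ D * sO Y := by
    calc #(((OG_S Y).erase m).biUnion (fun m' => OG_B b T m m'))
        ≤ ∑ m' ∈ (OG_S Y).erase m, #(OG_B b T m m') := card_biUnion_le
      _ ≤ ∑ m' ∈ (OG_S Y).erase m, D := by
          apply sum_le_sum
          intro m' hm'
          rw [mem_erase] at hm'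
          obtain ⟨hne, hm''⟩ := hm'
          unfold OG_S at hm''
          rw [mem_filter, mem_range] at hm''
          refine (OG_collision hOC hT hne).trans (hD _ ?_ ?_)
          · have : 0 < m' - m + (m - m') := by omega
            positivity
          · have h7 : m' - m + (m - m') ≤ Y := by omega
            have h8 : 8 * 4 ^ b * (m' - m + (m - m')) ≤ 8 * 4 ^ b * Y := Nat.mul_le_mul_left _ h7
            have h9 : 8 * 4 ^ b * Y = 8 * (4 ^ b * Y) := by ring
            omega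
      _ = #((OG_S Y).erase m) * D := by rw [sum_const, smul_eq_mul]
      _ ≤ sO Y * D := by
          apply Nat.mul_le_mul_right
          exact card_le_card (erase_subset _ _)
      _ = D * sO Y := mul_comm _ _
  have hc5 := card_union_le (OG_G b e T m) (((24 * m - 1).divisors ∪ Bdu b e m T) ∪
        ((OG_S Y).erase m).biUnion (fun m' => OG_B b T m m'))
  have hc6 := card_union_le ((24 * m - 1).divisors ∪ Bdu b e m T)
        (((OG_S Y).erase m).biUnion (fun m' => OG_B b T m m'))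
  have hc7 := card_union_le (24 * m - 1).divisors (Bdu b e m T)
  omega

theorem OG (hOD : OD_stmt) (hOC : OC_stmt) (hOP : OP_stmt) (hOM : OM_stmt) : OG_stmt := by
  classical
  intro b e Y U T D P hb he hT hU hTU hD hP
  -- the number of first coordinates
  have hS : sO (Y - U) - 1 ≤ #(OG_S1 (Y - U)) := by
    unfold OG_S1
    have h1 := pred_card_le_card_erase (s := OG_S (Y - U)) (a := 0)
    exact h1
  have hG : ∀ m ∈ OG_S1 (Y - U),
      P - (D + 2 ^ b * D ^ 2 * (T / (2 ^ b * e) + 1) + D * sO Y) ≤ #(OG_G b e T m) := by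
    intro m hm
    unfold OG_S1 OG_S at hm
    rw [mem_erase, mem_filter, mem_range] at hm
    exact OG_card_G hOD hOC hb he hT hU hTU hD hP (by omega) (by omega)
  -- the numbers n
  set N : Finset ℕ := ((OG_S1 (Y - U)).sigma (fun m => OG_G b e T m)).image
    (fun p : (_ : ℕ) × ℕ => tri ((p.2 - 1) / 2) + 4 ^ b * p.1) with hN
  have hNcard : #N = ∑ m ∈ OG_S1 (Y - U), #(OG_G b e T m) := by
    rw [hN, card_image_of_injOn, card_sigma]
    rintro ⟨m, u⟩ h1 ⟨m', u'⟩ h2 heq
    rw [mem_coe, mem_sigma] at h1 h2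
    obtain ⟨h1m, h1u⟩ := h1
    obtain ⟨h2m, h2u⟩ := h2
    simp only at h1m h1u h2m h2u heq
    unfold OG_G at h1u h2u
    rw [mem_filter] at h1u h2u
    unfold OG_S1 OG_S at h1m h2m
    rw [mem_erase, mem_filter] at h1m h2m
    have hmm : m = m' := by
      by_contra hne
      exact h1u.2.2.2.2 m' ((u' - 1) / 2) h2m.2.2 (fun h => hne h.symm) heq.symm
    subst hmm
    have h3 : tri ((u - 1) / 2) = tri ((u' - 1) / 2) := by omega
    have h4 := OG_tri_inj h3
    have h5 := OG_odd hT h1u.1 h1u.2.1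
    have h6 := OG_odd hT h2u.1 h2u.2.1
    have h7 : u = u' := by omega
    subst h7
    rfl
  have h416 : 4 ^ b * (4 ^ b * Y) = 16 ^ b * Y := by
    rw [← mul_assoc, ← mul_pow]
    norm_num
  have hfin := hOM b e (4 ^ b * Y) D (by omega) (by rw [h416]; exact hD) N (by
    intro n hn
    rw [hN, mem_image] at hn
    obtain ⟨⟨m, u⟩, hmu, rfl⟩ := hn
    rw [mem_sigma] at hmu
    obtain ⟨hm, hu⟩ := hmu
    simp only at hm hu ⊢
    unfold OG_S1 OG_S at hm
    rw [mem_erase, mem_filter, mem_range] at hm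
    obtain ⟨hm0, hmr, hmodd⟩ := hm
    unfold OG_G at hu
    rw [mem_filter] at hu
    obtain ⟨hI, hp, hu1, hcl, hco⟩ := hu
    have hodd := OG_odd hT hI hp
    have hm1 : 1 ≤ m := by omega
    have h4m : 4 ^ b ≤ 4 ^ b * m := Nat.le_mul_of_pos_right _ hm1
    have h4n : 4 ^ b ≤ tri ((u - 1) / 2) + 4 ^ b * m := by omega
    refine ⟨?_, h4n, ?_⟩
    · have h7 := OG_tri ((u - 1) / 2)
      rw [hodd] at h7
      rw [mem_Ioc] at hI
      have h8 : u ^ 2 ≤ (2 * T) ^ 2 := Nat.pow_le_pow_left hI.2 2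
      have h9 : (2 * T) ^ 2 = 4 * T ^ 2 := by ring
      have h10 : tri ((u - 1) / 2) ≤ 4 ^ b * U := by omega
      have h11 : 4 ^ b * m ≤ 4 ^ b * (Y - U) := Nat.mul_le_mul_left _ (by omega)
      have h12 : 4 ^ b * (Y - U) + 4 ^ b * U = 4 ^ b * Y := by
        rw [← mul_add]; congr 1; omega
      omega
    · apply hOP b e _ hb h4n _ hcl
      rw [card_eq_one]
      refine ⟨(u - 1) / 2, ?_⟩
      ext r
      rw [mem_filter, mem_singleton]
      constructor
      · rintro ⟨hr, hro⟩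
        unfold rs at hr
        rw [mem_filter] at hr
        obtain ⟨_, hr1, hr2⟩ := hr
        have h5 : 4 ^ b * ((tri ((u - 1) / 2) + 4 ^ b * m - tri r) / 4 ^ b) =
            tri ((u - 1) / 2) + 4 ^ b * m - tri r := Nat.mul_div_cancel' hr2
        by_cases hmm : (tri ((u - 1) / 2) + 4 ^ b * m - tri r) / 4 ^ b = m
        · rw [hmm] at h5
          exact OG_tri_inj (by omega)
        · exfalso
          apply hco _ r hro hmm
          omega
      · rintro rfl
        have h6 : (tri ((u - 1) / 2) + 4 ^ b * m - tri ((u - 1) / 2)) = 4 ^ b * m := by omega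
        refine ⟨?_, ?_⟩
        · unfold rs
          rw [mem_filter, mem_range]
          have h7 := OG_le_tri ((u - 1) / 2)
          refine ⟨by omega, by omega, ?_⟩
          rw [h6]
          exact dvd_mul_right _ _
        · rw [h6, Nat.mul_div_cancel_left _ (by positivity)]
          exact hmodd)
  rw [h416] at hfin
  refine le_trans ?_ hfin
  rw [hNcard]
  calc (sO (Y - U) - 1) * (P - (D + 2 ^ b * D ^ 2 * (T / (2 ^ b * e) + 1) + D * sO Y))
      ≤ #(OG_S1 (Y - U)) * (P - (D + 2 ^ b * D ^ 2 * (T / (2 ^ b * e) + 1) + D * sO Y)) :=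
        Nat.mul_le_mul_right _ hS
    _ = ∑ m ∈ OG_S1 (Y - U),
        (P - (D + 2 ^ b * D ^ 2 * (T / (2 ^ b * e) + 1) + D * sO Y)) := by
        rw [sum_const, smul_eq_mul]
    _ ≤ ∑ m ∈ OG_S1 (Y - U), #(OG_G b e T m) := sum_le_sum hG

end Pool.Agent.EP
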